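import Pool.Agent.Helper13.TW.StE

/-!
# Project TW, module MD3: small subdivisions of the cells of the plane
-/

set_option autoImplicit false

namespace Pool.Agent.Helper97.TW

open Set Topology Pool.Agent.Helper13.TR Pool.Agent.Helper13.TW

private theorem arc_img {D : Set ℂ} {p q : ℂ} (h : ℂ ≃ₜ ℂ) (hD : IsArc D p q) :
    IsArc (h '' D) (h p) (h q) := by
  obtain ⟨γ, hi, hr⟩ := hD
  refine ⟨γ.map h.continuous, ?_, ?_⟩
  · intro a b hab
    exact hi (h.injective hab)
  · rw [← hr, ← range_comp]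
    rfl

private theorem splt_img {E J D₁ D₂ P E₁ E₂ : Set ℂ} {p q : ℂ} (h : ℂ ≃ₜ ℂ)
    (hs : Splt E J p q D₁ D₂ P E₁ E₂) :
    Splt (h '' E) (h '' J) (h p) (h q) (h '' D₁) (h '' D₂) (h '' P) (h '' E₁) (h '' E₂) := by
  obtain ⟨⟨a1, a2, a3, a4⟩, b, c, d, e, f, g⟩ := hs
  refine ⟨⟨arc_img h a1, arc_img h a2, ?_, ?_⟩, arc_img h b, ?_, ?_, ?_, ?_, ?_⟩
  · rw [← image_inter h.injective, a3, image_pair]
  · rw [← image_union, a4]
  · rw [← image_inter h.injective, c, image_pair]
  · rw [← image_union, d]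
  · rw [← image_inter h.injective, e]
  · rw [← image_inter h.injective, f]
  · rw [← image_inter h.injective, g]

private theorem mcell_img {E J : Set ℂ} (h : ℂ ≃ₜ ℂ) (hc : MCell E J) : MCell (h '' E) (h '' J) := by
  obtain ⟨k, h1, h2⟩ := hc
  refine ⟨k.trans h, ?_, ?_⟩
  · rw [← h1, ← image_comp]
    rfl
  · rw [← h2, ← image_comp]
    rfl

/-- subdivision along the lines of a list -/
private theorem claim (hMD1 : StMD1) (h : ℂ ≃ₜ ℂ) (ε : ℝ) : ∀ (L : List ((ℂ →ₗ[ℝ] ℝ) × ℝ)) (C : Set ℂ),
    IsCompact C → Convex ℝ C → (interior C).Nonempty →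
    (∀ D ⊆ C, (∀ a ∈ L, D ⊆ {z | a.1 z ≤ a.2} ∨ D ⊆ {z | a.2 ≤ a.1 z}) → Metric.diam (h '' D) < ε) →
    GT MCell ε (h '' C) (h '' frontier C) := by
  intro L
  induction L with
  | nil =>
    intro C _ _ _ hS
    refine GT.leaf _ _ (hS C (Subset.refl _) fun a ha => ?_)
    exact absurd ha (List.not_mem_nil)
  | cons a L ih =>
    intro C hc hv hn hS
    obtain ⟨f, t⟩ := a
    by_cases hu : ∃ u ∈ C, f u < t
    · by_cases hw : ∃ v ∈ C, t < f v
      · obtain ⟨n1, n2, p, q, D₁, D₂, hsp, f1, f2⟩ := hMD1.2.2 C hc hv hn f t hu hw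
        have fc : Continuous f := f.continuous_of_finiteDimensional
        have cc1 : IsClosed {z : ℂ | f z ≤ t} := isClosed_le fc continuous_const
        have cc2 : IsClosed {z : ℂ | t ≤ f z} := isClosed_le continuous_const fc
        have v1 : Convex ℝ {z : ℂ | f z ≤ t} := convex_halfSpace_le f.isLinear t
        have v2 : Convex ℝ {z : ℂ | t ≤ f z} := convex_halfSpace_ge f.isLinear t
        have k1 : IsCompact (C ∩ {z | f z ≤ t}) := hc.inter_right cc1
        have k2 : IsCompact (C ∩ {z | t ≤ f z}) := hc.inter_right cc2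
        have g1 := ih (C ∩ {z | f z ≤ t}) k1 (hv.inter v1) n1 fun D hD hL => by
          refine hS D (hD.trans inter_subset_left) fun b hb => ?_
          rcases List.mem_cons.1 hb with hb | hb
          · rw [hb]
            exact Or.inl (hD.trans inter_subset_right)
          · exact hL b hb
        have g2 := ih (C ∩ {z | t ≤ f z}) k2 (hv.inter v2) n2 fun D hD hL => by
          refine hS D (hD.trans inter_subset_left) fun b hb => ?_
          rcases List.mem_cons.1 hb with hb | hb
          · rw [hb]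
            exact Or.inr (hD.trans inter_subset_right)
          · exact hL b hb
        have m1 := mcell_img h (hMD1.2.1 _ k1 (hv.inter v1) n1)
        have m2 := mcell_img h (hMD1.2.1 _ k2 (hv.inter v2) n2)
        rw [f1, image_union] at g1 m1
        rw [f2, image_union] at g2 m2
        exact GT.node _ _ _ _ _ _ _ _ _ (splt_img h hsp) m1 m2 g1 g2
      · push Not at hw
        refine ih C hc hv hn fun D hD hL => hS D hD fun b hb => ?_
        rcases List.mem_cons.1 hb with hb | hb
        · rw [hb]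
          exact Or.inl fun z hz => hw z (hD hz)
        · exact hL b hb
    · push Not at hu
      refine ih C hc hv hn fun D hD hL => hS D hD fun b hb => ?_
      rcases List.mem_cons.1 hb with hb | hb
      · rw [hb]
        exact Or.inr fun z hz => hu z (hD hz)
      · exact hL b hb

private theorem grid {s : ℝ} (hs : 0 < s) {K : ℕ} (hK : 1 / s + 1 ≤ K) {x y : ℝ} (hx : |x| ≤ 1)
    (hxy : x + s < y) : ∃ j ∈ List.range (2 * K + 1), x < ((j : ℝ) - K) * s ∧ ((j : ℝ) - K) * s < y := by
  have h1 := abs_le.1 hx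
  have e1 : -(1 / s) ≤ x / s := by
    rw [← neg_div, div_le_div_iff_of_pos_right hs]
    exact h1.1
  have e2 : x / s ≤ 1 / s := by
    rw [div_le_div_iff_of_pos_right hs]
    exact h1.2
  have hn : 0 ≤ x / s + K := by linarith
  have f1 := Nat.floor_le hn
  have f2 := Nat.lt_floor_add_one (x / s + K)
  refine ⟨⌊x / s + K⌋₊ + 1, ?_, ?_, ?_⟩
  · rw [List.mem_range]
    have : ((⌊x / s + K⌋₊ + 1 : ℕ) : ℝ) ≤ ((2 * K : ℕ) : ℝ) := by
      push_cast
      linarith
    have := Nat.cast_le.1 this
    omega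
  · push_cast
    have : x / s < (⌊x / s + K⌋₊ : ℝ) + 1 - K := by linarith
    rw [div_lt_iff₀ hs] at this
    exact this
  · push_cast
    have h3 : (⌊x / s + K⌋₊ : ℝ) + 1 - K ≤ x / s + 1 := by linarith
    have h4 := mul_le_mul_of_nonneg_right h3 hs.le
    have h5 : (x / s + 1) * s = x + s := by field_simp
    linarith

theorem hMD3 (hMD1 : StMD1) (_hARB : StARB) : StMD3 := by
  intro ε hε E J hEJ
  obtain ⟨h, hE, hJ⟩ := hEJ
  have hcb : IsCompact (Metric.closedBall (0 : ℂ) 1) := isCompact_closedBall 0 1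
  have huc := hcb.uniformContinuousOn_of_continuous h.continuous.continuousOn
  rw [Metric.uniformContinuousOn_iff] at huc
  obtain ⟨δ, hδ, hh⟩ := huc (ε / 2) (by positivity)
  set s : ℝ := δ / 4 with hs
  have hs0 : 0 < s := by positivity
  obtain ⟨K, hK⟩ := exists_nat_ge (1 / s + 1)
  set L : List ((ℂ →ₗ[ℝ] ℝ) × ℝ) :=
    (List.range (2 * K + 1)).map (fun j : ℕ => (Complex.reLm, ((j : ℝ) - K) * s)) ++
      (List.range (2 * K + 1)).map (fun j : ℕ => (Complex.imLm, ((j : ℝ) - K) * s)) with hL
  have key := claim hMD1 h ε L (Metric.closedBall (0 : ℂ) 1) hcb (convex_closedBall 0 1)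
    (by rw [interior_closedBall (0 : ℂ) one_ne_zero]; exact ⟨0, Metric.mem_ball_self one_pos⟩) ?_
  · rwa [frontier_closedBall (0 : ℂ) one_ne_zero, hE, hJ] at key
  · intro D hD hLD
    -- a linear function of the list varies little on `D`
    have gap : ∀ f : ℂ →ₗ[ℝ] ℝ, (∀ j ∈ List.range (2 * K + 1), (f, ((j : ℝ) - K) * s) ∈ L) →
        (∀ z ∈ D, |f z| ≤ 1) → ∀ z ∈ D, ∀ w ∈ D, f w ≤ f z + s := by
      intro f hf hb z hz w hw
      by_contra hcon
      rw [not_le] at hcon
      obtain ⟨j, hj, h1, h2⟩ := grid hs0 hK (hb z hz) hcon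
      rcases hLD _ (hf j hj) with h3 | h3
      · have h4 : f w ≤ ((j : ℝ) - K) * s := h3 hw
        linarith
      · have h4 : ((j : ℝ) - K) * s ≤ f z := h3 hz
        linarith
    have nrm : ∀ z ∈ D, ‖z‖ ≤ 1 := fun z hz => by
      have := hD hz
      rwa [mem_closedBall_zero_iff] at this
    have gre := gap Complex.reLm (fun j hj => by
      rw [hL]
      exact List.mem_append_left _ (List.mem_map.2 ⟨j, hj, rfl⟩))
      (fun z hz => (Complex.abs_re_le_norm z).trans (nrm z hz))
    have gim := gap Complex.imLm (fun j hj => by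
      rw [hL]
      exact List.mem_append_right _ (List.mem_map.2 ⟨j, hj, rfl⟩))
      (fun z hz => (Complex.abs_im_le_norm z).trans (nrm z hz))
    have hdist : ∀ z ∈ D, ∀ w ∈ D, dist z w < δ := by
      intro z hz w hw
      rw [Complex.dist_eq]
      have h1 := Complex.norm_le_abs_re_add_abs_im (z - w)
      have a1 : z.re ≤ w.re + s := gre w hw z hz
      have a2 : w.re ≤ z.re + s := gre z hz w hw
      have b1 : z.im ≤ w.im + s := gim w hw z hz
      have b2 : w.im ≤ z.im + s := gim z hz w hw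
      have h2 : |(z - w).re| ≤ s := by
        rw [Complex.sub_re, abs_le]
        constructor <;> linarith
      have h3 : |(z - w).im| ≤ s := by
        rw [Complex.sub_im, abs_le]
        constructor <;> linarith
      have : s + s < δ := by rw [hs]; linarith
      linarith
    have : Metric.diam (h '' D) ≤ ε / 2 := by
      refine Metric.diam_le_of_forall_dist_le (by positivity) ?_
      rintro _ ⟨z, hz, rfl⟩ _ ⟨w, hw, rfl⟩
      exact (hh z (hD hz) w (hD hw) (hdist z hz w hw)).le
    linarith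

end Pool.Agent.Helper97.TW
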