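import Pool.Agent.Helper13.TW.StD

/-!
# Project TW, module S3B: subdivision into small cells
-/

set_option autoImplicit false

namespace Pool.Agent.Helper97.TW

open Set Topology Pool.Agent.Helper13.TR Pool.Agent.Helper13.TW

/-- composition of subdivisions -/
private theorem gs_comp (hTHE : StTHE) {S : Type} [MetricSpace S] [LocallyPathConnectedSpace S]
    [PathConnectedSpace S] {ω : S → Ch S 2 → ℤ} {V : Set S} (hG : GR S ω V) {Φ Ψ : Set S → Prop}
    {J : Set S} (h : GS ω Φ J) : Cel ω V J →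
    (∀ J' : Set S, Φ J' → Cel ω V J' → cl ω J' ⊆ cl ω J → GS ω Ψ J') → GS ω Ψ J := by
  induction h with
  | leaf J h => intro hJ hk; exact hk J h hJ (Subset.refl _)
  | node J p q D₁ D₂ P hS hC g1 g2 ih1 ih2 =>
    intro hJ hk
    obtain ⟨c1, c2, _, _, hu, _, _, _⟩ := hTHE S ω V hG J hJ p q D₁ D₂ P hS hC
    have s1 : cl ω (D₁ ∪ P) ⊆ cl ω J := by rw [← hu]; exact subset_union_left
    have s2 : cl ω (D₂ ∪ P) ⊆ cl ω J := by rw [← hu]; exact subset_union_right
    exact GS.node J p q D₁ D₂ P hS hC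
      (ih1 c1 fun J' h1 h2 h3 => hk J' h1 h2 (h3.trans s1))
      (ih2 c2 fun J' h1 h2 h3 => hk J' h1 h2 (h3.trans s2))

theorem hS3B (hS3A : StS3A) (hSCE : StSCE) (hTHE : StTHE) (hTWO : StTWO) (_hCLS : StCLS) : StS3B := by
  intro S _ _ _ ω V hG hL J hJ ε hε
  have hclV : cl ω J ⊆ V := by
    unfold cl
    exact union_subset hJ.1.2.1 hJ.2
  -- the data at a point
  have pick : ∀ x ∈ cl ω J, ∃ (K : Set S) (r : ℝ), 0 < r ∧ Cel ω V K ∧ cl ω K ⊆ Metric.ball x (ε / 8) ∧
      Metric.ball x (2 * r) ⊆ Ins ω K := by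
    intro x hx
    obtain ⟨K, hK, hxK, hKO⟩ := hSCE S ω V hG hL x (hclV hx) (Metric.ball x (ε / 8)) Metric.isOpen_ball
      (Metric.mem_ball_self (by positivity))
    have ho : IsOpen (Ins ω K) := (hTWO S ω V hG K hK.1).1.1
    obtain ⟨r, hr, hrs⟩ := Metric.isOpen_iff.1 ho x hxK
    exact ⟨K, r / 2, by positivity, hK, hKO, by rw [mul_div_cancel₀ r (by norm_num : (2 : ℝ) ≠ 0)]; exact hrs⟩
  choose! K r hr hK hKO hball using pick
  set F : S → Set S := fun x => Metric.ball x (r x) with hF
  set G : S → Set S := fun x => {y | ∀ c ∈ cl ω (K x), ε / 8 ≤ dist y c} with hGd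
  set Q : S → Set S → Prop := fun x J' => ¬((cl ω J' ∩ F x).Nonempty ∧ (cl ω J' ∩ G x).Nonempty) with hQ
  have Qmono : ∀ x J' J'', cl ω J'' ⊆ cl ω J' → Q x J' → Q x J'' := by
    intro x J' J'' hs h1 h2
    exact h1 ⟨h2.1.mono (inter_subset_inter_left _ hs), h2.2.mono (inter_subset_inter_left _ hs)⟩
  -- one step
  have step : ∀ x ∈ cl ω J, ∀ J' : Set S, Cel ω V J' → GS ω (Q x) J' := by
    intro x hx J' hJ'
    refine hS3A S ω V hG hL J' (K x) hJ' (hK x hx) (min (r x) (ε / 8)) (F x) (G x)
      (lt_min (hr x hx) (by positivity)) ?_ ?_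
    · intro y hy
      have hy' : dist y x < r x := hy
      refine ⟨hball x hx ?_, ?_⟩
      · rw [Metric.mem_ball]
        have := hr x hx
        linarith
      · intro k hk
        have hk2 : k ∉ Metric.ball x (2 * r x) := fun h => (hball x hx h).1 hk
        rw [Metric.mem_ball, not_lt] at hk2
        have h3 := dist_triangle k y x
        rw [dist_comm k y] at h3
        exact (min_le_left _ _).trans (by linarith)
    · intro y hy
      refine ⟨fun h => ?_, fun k hk => ?_⟩
      · have := hy y h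
        rw [dist_self] at this
        linarith
      · exact (min_le_right _ _).trans (hy k (Or.inl hk))
  -- finitely many steps
  have many : ∀ T : Finset S, (∀ x ∈ T, x ∈ cl ω J) → GS ω (fun J' => ∀ x ∈ T, Q x J') J := by
    classical
    intro T
    induction T using Finset.induction_on with
    | empty =>
      intro _
      exact GS.leaf J fun x hx => absurd hx (Finset.notMem_empty x)
    | insert a T _ ih =>
      intro hT
      have h1 := ih fun x hx => hT x (Finset.mem_insert_of_mem hx)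
      refine gs_comp hTHE hG h1 hJ fun J' hJ1 hJ2 _ => ?_
      refine gs_comp hTHE hG (step a (hT a (Finset.mem_insert_self a T)) J' hJ2) hJ2 fun J'' k1 _ k3 => ?_
      refine GS.leaf J'' fun x hx => ?_
      rcases Finset.mem_insert.1 hx with h | h
      · rw [h]; exact k1
      · exact Qmono x J' J'' k3 (hJ1 x h)
  have hcpt : IsCompact (cl ω J) := (hTWO S ω V hG J hJ.1).2.2.1
  obtain ⟨T, hT1, hT2⟩ := hcpt.elim_nhds_subcover F fun x hx => Metric.ball_mem_nhds x (hr x hx)
  refine gs_comp hTHE hG (many T hT1) hJ fun J' h1 _ h3 => GS.leaf J' ?_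
  have key : Metric.diam (cl ω J') ≤ ε / 2 := by
    refine Metric.diam_le_of_forall_dist_le (by positivity) fun u hu v hv => ?_
    obtain ⟨x, hxT, hux⟩ := mem_iUnion₂.1 (hT2 (h3 hu))
    have near : ∀ y ∈ cl ω J', dist y x < ε / 4 := by
      intro y hy
      by_contra hcon
      refine h1 x hxT ⟨⟨u, hu, hux⟩, ⟨y, hy, ?_⟩⟩
      intro c hc
      have h4 : dist c x < ε / 8 := hKO x (hT1 x hxT) hc
      have h5 := dist_triangle y c x
      rw [not_lt] at hcon
      linarith
    have h6 := dist_triangle_right u v x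
    have h7 := near u hu
    have h8 := near v hv
    linarith
  linarith

end Pool.Agent.Helper97.TW
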