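import Pool.Agent.Helper31.TW.St2

/-!
# Project TW (MP_434a84_lc), module CHO: chords
-/

set_option autoImplicit false

namespace Pool.Agent.Helper97.TW

open Pool.Agent.Helper31.TW Pool.Agent.Helper22.CS Pool.Agent.Helper15.TS

variable {n : ℕ}

private theorem dot_add (α x y : Fin n → ℤ) : dot α (x + y) = dot α x + dot α y := by
  simp only [dot, Pi.add_apply, mul_add, Finset.sum_add_distrib]

private theorem dot_smul (α : Fin n → ℤ) (c : ℤ) (x : Fin n → ℤ) :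
    dot α (c • x) = c * dot α x := by
  simp only [dot, Pi.smul_apply, smul_eq_mul, Finset.mul_sum]
  refine Finset.sum_congr rfl fun i _ => by ring

private theorem dot_neg (α x : Fin n → ℤ) : dot α (-x) = -dot α x := by
  simp only [dot, Pi.neg_apply, mul_neg, Finset.sum_neg_distrib]

private theorem dot_sub (α x y : Fin n → ℤ) : dot α (x - y) = dot α x - dot α y := by
  rw [sub_eq_add_neg, dot_add, dot_neg, sub_eq_add_neg]

private theorem dot_zero (α : Fin n → ℤ) : dot α 0 = 0 := by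
  simp [dot]

private theorem sign_smul (β : Fin n → ℤ) (c : ℤ) (hc : 0 < c) (y : Fin n → ℤ) :
    Int.sign (dot β (c • y)) = Int.sign (dot β y) := by
  rw [dot_smul, Int.sign_mul, Int.sign_eq_one_of_pos hc, one_mul]

private theorem core (hEV1 : StEV1) (hF1 : StF1) {M : (Fin n → ℤ) → Prop}
    {𝓐 : Finset (Fin n → ℤ)} {K : ℕ} (hD : Dep M 𝓐 K) {α y1 y2 u x0 : Fin n → ℤ}
    (hG : Gen 𝓐 α y1) (ha2 : dot α y2 = 0) (hau : dot α u = 1)
    {A0 : ℕ} {N m m' : ℤ} (hA : 2 ≤ A0) (hN : 1 ≤ N) {q : Fin 3 → Fin n → ℕ} {c : Fin n → ℕ}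
    (hq0 : toZ (q 0) = u + m • y2)
    (hq1 : toZ (q 1) = N • ((A0 : ℤ) • y1 - y2) - (u + m • y2))
    (hq2 : toZ (q 2) = N • ((A0 : ℤ) • y2 - y1) - (u + m • y2))
    (hc : toZ c = x0 + m' • y2)
    {R : Finset ((Fin 3 → ℕ) × Finset (Fin 3 → ℕ))}
    (hR : ∀ k : Fin 3 → ℕ, M (toZ (c + ∑ j, k j • q j)) ↔ ∃ r ∈ R, k ∈ lin r.1 r.2)
    (hRc : ∀ r ∈ R, ∀ p ∈ r.2, ∃ j, p j = 0) {B : ℕ}
    (hB : ∀ r ∈ R, ∀ p ∈ r.2, ∀ j, p j ≤ B) {G : ℕ} (hG1 : 1 ≤ G)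
    (hGd : ∀ g : ℕ, 1 ≤ g → g ≤ 2 * B → g ∣ G)
    (j : ℤ) (hEv : Ev M (x0 + j • u) y1)
    (hH : ∀ g : ℕ, 1 ≤ g → g ∣ G → ∃ s : ℤ, ¬ Ev M (x0 + j • u + (s * (g : ℤ)) • u) y1) :
    Ev M (x0 + j • u) y2 := by
  obtain ⟨-, -, e3⟩ := hEV1 n M 𝓐 K hD
  obtain ⟨-, ha1, hgen⟩ := hG
  have hAp : (0 : ℤ) < (A0 : ℤ) ^ 2 - 1 := by
    have h1 : (2 : ℤ) ≤ (A0 : ℤ) := by exact_mod_cast hA
    nlinarith
  have hGp : (0 : ℤ) < (G : ℤ) := by exact_mod_cast hG1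
  have hNp : (0 : ℤ) < N := by omega
  have hl : ∀ i : Fin 3, 1 ≤ (![G * (A0 + 1), G * A0, G] : Fin 3 → ℕ) i := by
    intro i
    fin_cases i
    · exact Nat.mul_pos hG1 (Nat.succ_pos _)
    · exact Nat.mul_pos hG1 (by omega)
    · exact hG1
  have hbase : toZ c + ∑ i, (![j, 0, 0] : Fin 3 → ℤ) i • toZ (q i) =
      x0 + j • u + (m' + j * m) • y2 := by
    rw [Fin.sum_univ_three, hc, hq0]
    simp only [Matrix.cons_val_zero, Matrix.cons_val_one, Matrix.cons_val, zero_smul, add_zero]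
    module
  have hY : ∑ i, (((![G * (A0 + 1), G * A0, G] : Fin 3 → ℕ) i : ℕ) : ℤ) • toZ (q i) =
      ((G : ℤ) * N * ((A0 : ℤ) ^ 2 - 1)) • y1 := by
    rw [Fin.sum_univ_three, hq0, hq1, hq2]
    simp only [Matrix.cons_val_zero, Matrix.cons_val_one, Matrix.cons_val]
    push_cast
    module
  have hYp : (0 : ℤ) < (G : ℤ) * N * ((A0 : ℤ) ^ 2 - 1) := mul_pos (mul_pos hGp hNp) hAp
  have hgα : ∀ β ∈ 𝓐, dot β y1 = 0 → β = α := by
    intro β hβ h0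
    by_contra hne
    exact hgen β hβ hne h0
  have hEvY : Ev M (toZ c + ∑ i, (![j, 0, 0] : Fin 3 → ℤ) i • toZ (q i))
      (∑ i, (((![G * (A0 + 1), G * A0, G] : Fin 3 → ℕ) i : ℕ) : ℤ) • toZ (q i)) := by
    rw [hbase, hY]
    refine (e3 _ _ _ _ ?_ ?_).1 hEv
    · intro β _
      exact (sign_smul β _ hYp y1).symm
    · intro β hβ h0
      rw [hgα β hβ h0, dot_add α (x0 + j • u), dot_smul, ha2, mul_zero, add_zero]
  obtain ⟨r, hr, P, hPr, μ, m1, k0, hm1, hP, hsum, h4, h5⟩ :=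
    hF1 n M 𝓐 K hD c q R hR _ hl _ hEvY
  -- the direction of a period
  have hw : ∀ p : Fin 3 → ℕ, dot α (∑ i : Fin 3, (p i : ℤ) • toZ (q i)) =
      (p 0 : ℤ) - (p 1 : ℤ) - (p 2 : ℤ) := by
    intro p
    rw [Fin.sum_univ_three, hq0, hq1, hq2]
    simp only [dot_add, dot_smul, dot_sub, ha1, ha2, hau]
    ring
  -- (a)
  have hbal : ∀ p ∈ P, p 0 = p 1 + p 2 := by
    intro p hp
    by_contra hne
    have hη : (p 0 : ℤ) - (p 1 : ℤ) - (p 2 : ℤ) ≠ 0 := by omega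
    have hb0 := hB r hr p (hPr hp) 0
    have hb1 := hB r hr p (hPr hp) 1
    have hb2 := hB r hr p (hPr hp) 2
    have hg1 : 1 ≤ ((p 0 : ℤ) - (p 1 : ℤ) - (p 2 : ℤ)).natAbs := by omega
    have hg2 : ((p 0 : ℤ) - (p 1 : ℤ) - (p 2 : ℤ)).natAbs ≤ 2 * B := by omega
    obtain ⟨s, hs⟩ := hH _ hg1 (hGd _ hg1 hg2)
    have h6 := h5 p hp (s * Int.sign ((p 0 : ℤ) - (p 1 : ℤ) - (p 2 : ℤ)))
    rw [hbase, hY] at h6
    refine hs ((e3 _ _ _ _ ?_ ?_).1 h6)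
    · intro β _
      exact sign_smul β _ hYp y1
    · intro β hβ h0
      have h0' : dot β y1 = 0 := by
        rw [dot_smul] at h0
        rcases mul_eq_zero.1 h0 with h | h
        · omega
        · exact h
      have hβα := hgα β hβ h0'
      subst hβα
      have h7 : Int.sign ((p 0 : ℤ) - (p 1 : ℤ) - (p 2 : ℤ)) *
          ((p 0 : ℤ) - (p 1 : ℤ) - (p 2 : ℤ)) =
          ((((p 0 : ℤ) - (p 1 : ℤ) - (p 2 : ℤ)).natAbs : ℕ) : ℤ) := Int.sign_mul_self_eq_natAbs _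
      rw [dot_add, dot_smul β _ (∑ i : Fin 3, (p i : ℤ) • toZ (q i)), hw p,
        dot_add β (x0 + j • u) ((m' + j * m) • y2), dot_smul β _ y2, ha2,
        dot_add β (x0 + j • u) ((s * _) • u), dot_smul β _ u, hau, mul_assoc, h7]
      ring
  -- (b)
  have hex : ∀ i : Fin 3, i ≠ 0 → ∃ p ∈ P, p i ≠ 0 := by
    intro i _
    by_contra hno
    push Not at hno
    have h6 : (∑ p ∈ P, μ p • p) i = 0 := by
      rw [Finset.sum_apply]
      refine Finset.sum_eq_zero fun p hp => ?_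
      rw [Pi.smul_apply, hno p hp, smul_zero]
    rw [hsum, Pi.smul_apply, smul_eq_mul] at h6
    have h7 := hl i
    rcases Nat.mul_eq_zero.1 h6 with h | h <;> omega
  obtain ⟨p1, hp1, hp1n⟩ := hex 1 (by decide)
  obtain ⟨p2, hp2, hp2n⟩ := hex 2 (by decide)
  have hz : ∀ p ∈ P, p 0 = 0 ∨ p 1 = 0 ∨ p 2 = 0 := by
    intro p hp
    obtain ⟨i, hi⟩ := hRc r hr p (hPr hp)
    fin_cases i
    · exact Or.inl hi
    · exact Or.inr (Or.inl hi)
    · exact Or.inr (Or.inr hi)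
  have h1b := hbal p1 hp1
  have h2b := hbal p2 hp2
  have h12 : p1 2 = 0 := by
    rcases hz p1 hp1 with h | h | h <;> omega
  have h21 : p2 1 = 0 := by
    rcases hz p2 hp2 with h | h | h <;> omega
  have h10 : p1 0 = p1 1 := by omega
  have h20 : p2 0 = p2 2 := by omega
  have hne12 : p1 ≠ p2 := fun h => hp2n (by rw [← h, h12])
  obtain ⟨ga, hga⟩ := hGd (p1 1) (by omega) (by have := hB r hr p1 (hPr hp1) 1; omega)
  obtain ⟨gb, hgb⟩ := hGd (p2 2) (by omega) (by have := hB r hr p2 (hPr hp2) 2; omega)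
  have ha0 : 1 ≤ p1 1 := by omega
  have hb0 : 1 ≤ p2 2 := by omega
  -- (c)
  have hfin : Ev M (x0 + j • u + (m' + j * m) • y2)
      (((p1 1 : ℤ) * (p2 2 : ℤ) * N * ((A0 : ℤ) ^ 2 - 1)) • y2) := by
    refine ⟨k0 * ga * A0 + k0 * gb, fun k hk => ?_⟩
    have ht1 : k0 * ga * A0 ≤ k * p2 2 := by
      calc k0 * ga * A0 ≤ k := by omega
        _ ≤ k * p2 2 := Nat.le_mul_of_pos_right _ hb0
    have ht2 : k0 * gb ≤ k * p1 1 * A0 := by
      calc k0 * gb ≤ k := by omega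
        _ ≤ k * p1 1 := Nat.le_mul_of_pos_right _ ha0
        _ ≤ k * p1 1 * A0 := Nat.le_mul_of_pos_right _ (by omega)
    obtain ⟨t1, ht1⟩ := Nat.exists_eq_add_of_le ht1
    obtain ⟨t2, ht2⟩ := Nat.exists_eq_add_of_le ht2
    have h6 := h4 (fun p => if p = p1 then t1 else if p = p2 then t2 else 0)
    have h7 : ∀ i : Fin 3, ∑ p ∈ P,
        (((if p = p1 then t1 else if p = p2 then t2 else 0 : ℕ)) : ℤ) * (p i : ℤ) =
        (t1 : ℤ) * (p1 i : ℤ) + (t2 : ℤ) * (p2 i : ℤ) := by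
      intro i
      have h8 : ∀ p ∈ P, (((if p = p1 then t1 else if p = p2 then t2 else 0 : ℕ)) : ℤ) * (p i : ℤ) =
          (if p = p1 then (t1 : ℤ) * (p1 i : ℤ) else 0) +
          (if p = p2 then (t2 : ℤ) * (p2 i : ℤ) else 0) := by
        intro p _
        by_cases hp : p = p1
        · subst hp
          simp [hne12]
        · by_cases hp' : p = p2
          · subst hp'
            simp [hp]
          · simp [hp, hp']
      rw [Finset.sum_congr rfl h8, Finset.sum_add_distrib, Finset.sum_ite_eq' P p1,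
        Finset.sum_ite_eq' P p2, if_pos hp1, if_pos hp2]
    simp only [h7] at h6
    have h9 : toZ c + ∑ i : Fin 3, ((![j, 0, 0] : Fin 3 → ℤ) i +
        (k0 : ℤ) * (((![G * (A0 + 1), G * A0, G] : Fin 3 → ℕ) i : ℕ) : ℤ) +
        ((t1 : ℤ) * (p1 i : ℤ) + (t2 : ℤ) * (p2 i : ℤ))) • toZ (q i) =
        x0 + j • u + (m' + j * m) • y2 +
          (k : ℤ) • (((p1 1 : ℤ) * (p2 2 : ℤ) * N * ((A0 : ℤ) ^ 2 - 1)) • y2) := by
      have hga' : (G : ℤ) = (p1 1 : ℤ) * (ga : ℤ) := by exact_mod_cast hga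
      have hgb' : (G : ℤ) = (p2 2 : ℤ) * (gb : ℤ) := by exact_mod_cast hgb
      have ht1' : (k : ℤ) * (p2 2 : ℤ) = (k0 : ℤ) * ga * A0 + t1 := by exact_mod_cast ht1
      have ht2' : (k : ℤ) * (p1 1 : ℤ) * (A0 : ℤ) = (k0 : ℤ) * gb + t2 := by exact_mod_cast ht2
      rw [Fin.sum_univ_three, hc, hq0, hq1, hq2]
      simp only [Matrix.cons_val_zero, Matrix.cons_val_one, Matrix.cons_val, h12, h21, h10, h20]
      have hcA : (k0 : ℤ) * G * A0 + t1 * p1 1 = (k : ℤ) * p1 1 * p2 2 := by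
        calc (k0 : ℤ) * G * A0 + t1 * p1 1
            = (k0 : ℤ) * ((p1 1 : ℤ) * ga) * A0 + t1 * p1 1 := by rw [← hga']
          _ = ((k0 : ℤ) * ga * A0 + t1) * p1 1 := by ring
          _ = (k : ℤ) * (p2 2 : ℤ) * p1 1 := by rw [← ht1']
          _ = (k : ℤ) * p1 1 * p2 2 := by ring
      have hcB : (k0 : ℤ) * G + t2 * p2 2 = (k : ℤ) * p1 1 * p2 2 * A0 := by
        calc (k0 : ℤ) * G + t2 * p2 2
            = (k0 : ℤ) * ((p2 2 : ℤ) * gb) + t2 * p2 2 := by rw [← hgb']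
          _ = ((k0 : ℤ) * gb + t2) * p2 2 := by ring
          _ = (k : ℤ) * (p1 1 : ℤ) * (A0 : ℤ) * p2 2 := by rw [← ht2']
          _ = (k : ℤ) * p1 1 * p2 2 * A0 := by ring
      funext i
      simp only [Pi.add_apply, Pi.sub_apply, Pi.smul_apply, smul_eq_mul]
      push_cast
      linear_combination (N * ((A0 : ℤ) * y1 i - y2 i)) * hcA +
        (N * ((A0 : ℤ) * y2 i - y1 i)) * hcB
    rw [← h9]
    exact h6
  have hp : (0 : ℤ) < (p1 1 : ℤ) * (p2 2 : ℤ) * N * ((A0 : ℤ) ^ 2 - 1) := by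
    have h1 : (0 : ℤ) < (p1 1 : ℤ) := by exact_mod_cast ha0
    have h2 : (0 : ℤ) < (p2 2 : ℤ) := by exact_mod_cast hb0
    exact mul_pos (mul_pos (mul_pos h1 h2) hNp) hAp
  refine (e3 _ _ _ _ ?_ ?_).1 hfin
  · intro β _
    exact sign_smul β _ hp y2
  · intro β _ h0
    have h0' : dot β y2 = 0 := by
      rw [dot_smul] at h0
      rcases mul_eq_zero.1 h0 with h | h
      · omega
      · exact h
    rw [dot_add β (x0 + j • u), dot_smul, h0', mul_zero, add_zero]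

private theorem exists_nat (v : Fin n → ℤ) (hv : Pos v) : ∃ w : Fin n → ℕ, toZ w = v := by
  refine ⟨fun i => (v i).toNat, ?_⟩
  funext i
  exact Int.toNat_of_nonneg (hv i).le

theorem hCHO (hEV1 : StEV1) (hF1 : StF1) (hNEA : StNEA) : StCHO := by
  intro n M 𝓐 K hctx α hα y1 y2 u x0 hG h2 ha2 hau
  have h1 : Pos y1 := hG.1
  have ha1 : dot α y1 = 0 := hG.2.1
  obtain ⟨A1, hA1⟩ := hNEA n 𝓐 y1 (-y2) h1
  obtain ⟨A2, hA2⟩ := hNEA n 𝓐 y2 (-y1) h2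
  obtain ⟨m0, hm0⟩ := hNEA n 𝓐 y2 u h2
  obtain ⟨m', hm'⟩ := hNEA n 𝓐 y2 x0 h2
  let A0 : ℕ := A1 + A2 + 2
  have hp : Pos ((A0 : ℤ) • y1 - y2) := by
    have := (hA1 (A0 : ℤ) (by simp only [A0]; push_cast; omega)).1
    rwa [← sub_eq_add_neg] at this
  have hq : Pos ((A0 : ℤ) • y2 - y1) := by
    have := (hA2 (A0 : ℤ) (by simp only [A0]; push_cast; omega)).1
    rwa [← sub_eq_add_neg] at this
  obtain ⟨N1, hN1⟩ := hNEA n 𝓐 _ (-(u + (m0 : ℤ) • y2)) hp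
  obtain ⟨N2, hN2⟩ := hNEA n 𝓐 _ (-(u + (m0 : ℤ) • y2)) hq
  let N : ℤ := (N1 : ℤ) + N2 + 1
  have hNN : 1 ≤ N := by simp only [N]; omega
  have hv0 : Pos (u + (m0 : ℤ) • y2) := by
    have := (hm0 (m0 : ℤ) le_rfl).1
    rwa [add_comm] at this
  have hv1 : Pos (N • ((A0 : ℤ) • y1 - y2) - (u + (m0 : ℤ) • y2)) := by
    have := (hN1 N (by simp only [N]; omega)).1
    rwa [← sub_eq_add_neg] at this
  have hv2 : Pos (N • ((A0 : ℤ) • y2 - y1) - (u + (m0 : ℤ) • y2)) := by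
    have := (hN2 N (by simp only [N]; omega)).1
    rwa [← sub_eq_add_neg] at this
  have hvc : Pos (x0 + (m' : ℤ) • y2) := by
    have := (hm' (m' : ℤ) le_rfl).1
    rwa [add_comm] at this
  obtain ⟨q0, hq0⟩ := exists_nat _ hv0
  obtain ⟨q1, hq1⟩ := exists_nat _ hv1
  obtain ⟨q2, hq2⟩ := exists_nat _ hv2
  obtain ⟨c, hc⟩ := exists_nat _ hvc
  let q : Fin 3 → Fin n → ℕ := ![q0, q1, q2]
  have hz : toZ (0 : Fin n → ℕ) = 0 := by
    funext i
    exact Nat.cast_zero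
  have hqn : ∀ i, q i ≠ 0 := by
    intro i
    fin_cases i
    · intro h
      have h3 : toZ q0 = 0 := by
        have h' : q0 = 0 := h
        rw [h', hz]
      have h4 := congrArg (dot α) (hq0.symm.trans h3)
      simp only [dot_add, dot_smul, ha2, hau, dot_zero] at h4
      omega
    · intro h
      have h3 : toZ q1 = 0 := by
        have h' : q1 = 0 := h
        rw [h', hz]
      have h4 := congrArg (dot α) (hq1.symm.trans h3)
      simp only [dot_add, dot_sub, dot_smul, ha1, ha2, hau, dot_zero] at h4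
      omega
    · intro h
      have h3 : toZ q2 = 0 := by
        have h' : q2 = 0 := h
        rw [h', hz]
      have h4 := congrArg (dot α) (hq2.symm.trans h3)
      simp only [dot_add, dot_sub, dot_smul, ha1, ha2, hau, dot_zero] at h4
      omega
  obtain ⟨R, hRc, hR⟩ := hctx.st c q hqn
  obtain ⟨R', hRc', hR'⟩ := hctx.sc c q hqn
  have hD := hctx.dep
  have hD' : Dep (fun z => ¬ M z) 𝓐 K := fun x x' h => not_congr (hD x x' h)
  let B : ℕ := (∑ r ∈ R, ∑ p ∈ r.2, ∑ i, p i) + ∑ r ∈ R', ∑ p ∈ r.2, ∑ i, p i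
  have hBB : ∀ (Q : Finset ((Fin 3 → ℕ) × Finset (Fin 3 → ℕ))), ∀ r ∈ Q, ∀ p ∈ r.2, ∀ i,
      p i ≤ ∑ r ∈ Q, ∑ p ∈ r.2, ∑ i, p i := by
    intro Q r hr p hp i
    calc p i ≤ ∑ i, p i := Finset.single_le_sum (f := fun i => p i) (fun _ _ => Nat.zero_le _)
          (Finset.mem_univ i)
      _ ≤ ∑ p ∈ r.2, ∑ i, p i := Finset.single_le_sum (f := fun p : Fin 3 → ℕ => ∑ i, p i)
          (fun _ _ => Nat.zero_le _) hp
      _ ≤ _ := Finset.single_le_sum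
          (f := fun r : (Fin 3 → ℕ) × Finset (Fin 3 → ℕ) => ∑ p ∈ r.2, ∑ i, p i)
          (fun _ _ => Nat.zero_le _) hr
  have hB : ∀ r ∈ R, ∀ p ∈ r.2, ∀ i, p i ≤ B := fun r hr p hp i =>
    (hBB R r hr p hp i).trans (Nat.le_add_right _ _)
  have hB' : ∀ r ∈ R', ∀ p ∈ r.2, ∀ i, p i ≤ B := fun r hr p hp i =>
    (hBB R' r hr p hp i).trans (Nat.le_add_left _ _)
  have hGd : ∀ g : ℕ, 1 ≤ g → g ≤ 2 * B → g ∣ (2 * B).factorial := fun g hg hg' =>
    Nat.dvd_factorial hg hg'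
  refine ⟨(2 * B).factorial, Nat.factorial_pos _, fun j hH => ?_⟩
  obtain ⟨e1, -, -⟩ := hEV1 n M 𝓐 K hD
  have hA0 : 2 ≤ A0 := by simp only [A0]; omega
  by_cases hx : Ev M (x0 + j • u) y1
  · have h3 : Ev M (x0 + j • u) y2 := by
      refine core hEV1 hF1 hD hG ha2 hau hA0 hNN (q := q) hq0 hq1 hq2 hc hR hRc hB
        (Nat.factorial_pos _) hGd j hx ?_
      intro g hg1 hg2
      obtain ⟨s, hs⟩ := hH g hg1 hg2
      exact ⟨s, fun h => hs ⟨fun _ => hx, fun _ => h⟩⟩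
    exact ⟨fun _ => hx, fun _ => h3⟩
  · have hx' : Ev (fun z => ¬ M z) (x0 + j • u) y1 := (e1 _ _).2 hx
    have h3 : Ev (fun z => ¬ M z) (x0 + j • u) y2 := by
      refine core hEV1 hF1 hD' hG ha2 hau hA0 hNN (q := q) hq0 hq1 hq2 hc hR' hRc' hB'
        (Nat.factorial_pos _) hGd j hx' ?_
      intro g hg1 hg2
      obtain ⟨s, hs⟩ := hH g hg1 hg2
      refine ⟨s, fun h => hs ⟨fun h' => ?_, fun h' => absurd h' hx⟩⟩
      exact absurd h' ((e1 _ _).1 h)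
    exact ⟨fun h => absurd h ((e1 _ _).1 h3), fun h => absurd h hx⟩

end Pool.Agent.Helper97.TW
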